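import Mathlib
import Pool.Agent.P.MP_2ce53a_nt.Prim
import Pool.Agent.P.MP_2ce53a_nt.P3x22.C0
import Pool.Agent.P.MP_2ce53a_nt.P3x22.C1
import Pool.Agent.P.MP_2ce53a_nt.P3x22.C2
import Pool.Agent.P.MP_2ce53a_nt.P3x22.C3
import Pool.Agent.P.MP_2ce53a_nt.P3x22.C4
import Pool.Agent.P.MP_2ce53a_nt.P3x22.C5
import Pool.Agent.P.MP_2ce53a_nt.P3x22.C6
import Pool.Agent.P.MP_2ce53a_nt.P3x22.C7
import Pool.Agent.P.MP_2ce53a_nt.P3x22.C8
import Pool.Agent.P.MP_2ce53a_nt.P3x22.C9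

namespace Pool.Agent.P.MP_2ce53a_nt.P3x22

open Pool.Agent.P.MP_2ce53a_nt

theorem root : cellOf ctx 8451 = ⟨0, 0, 0, 1, 0, 0, 1, 0, 1⟩ := by
  have h : cword (ctx.ceT.get (Nat.shiftRight 8451 6)) 8451 = 39402006196394479212279040100640937041489525912620828916095114244346177944595303527385353373313793410467522871820288 := by decide +kernel
  rw [cellOf, h]
  rfl

theorem universal : Universal 3 22 :=
  universal_of (C := ctx) (ps := [2, 3, 5]) (N := 8451) (by decide +kernel) F5_pos (by decide +kernel)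
    (by decide +kernel) (fun _ hl h => nb5 hl (h 2 (by decide)) (h 5 (by decide)))
    (fun n => ex5b (1315 + 600 * n) (by omega)) root
    fun _ H => (m9 H (m8 H (m7 H (m6 H (m5 H (m4 H (m3 H (m2 H (m1 H (m0 H (fun _ h => absurd h (Nat.not_lt_zero _))))))))))))

end Pool.Agent.P.MP_2ce53a_nt.P3x22
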